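import Mathlib

/-!
# Infinitely many star-irregular and clique-irregular graphs
-/

set_option autoImplicit false

namespace Pool.Agent.Results.MP_5484c7_co.Infinite

/-- The `F`-degree of `x` in `G`: the number of subgraphs of `G` (not necessarily induced) that are
isomorphic to `F` and contain `x`. -/
noncomputable def fdeg {W V : Type} (F : SimpleGraph W) (G : SimpleGraph V) (x : V) : ℕ :=
  Nat.card {H : G.Subgraph // x ∈ H.verts ∧ Nonempty (H.coe ≃g F)}

/-- `G` is `F`-irregular. -/
def Irregular {W V : Type} (F : SimpleGraph W) (G : SimpleGraph V) : Prop :=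
  ∀ x y : V, x ≠ y → fdeg F G x ≠ fdeg F G y

/-- The star with `n` leaves. -/
abbrev star (n : ℕ) : SimpleGraph (Fin 1 ⊕ Fin n) := completeBipartiteGraph (Fin 1) (Fin n)

/-- The complete graph on `n` vertices. -/
abbrev K (n : ℕ) : SimpleGraph (Fin n) := ⊤

/-! ### Counting pairs -/

section Pairs

variable {V : Type} [Fintype V] [DecidableEq V]

/-- The pairs `(c, S)` with `S` an `r`-subset of `N c` and `x` one of `c` and the elements of `S`. -/
abbrev Pairs (N : V → Finset V) (r : ℕ) (x : V) : Type :=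
  {p : V × Finset V // (p.2 ⊆ N p.1 ∧ p.2.card = r) ∧ (x = p.1 ∨ x ∈ p.2)}

omit [Fintype V] in
lemma card_filter_mem (A : Finset V) (x : V) (hx : x ∈ A) (r : ℕ) :
    ((A.powersetCard (r + 1)).filter (fun S => x ∈ S)).card = (A.card - 1).choose r := by
  have : (A.powersetCard (r + 1)).filter (fun S => x ∈ S) =
      ((A.erase x).powersetCard r).image (insert x) := by
    ext S
    simp only [Finset.mem_filter, Finset.mem_powersetCard, Finset.mem_image]
    constructor
    · rintro ⟨⟨h1, h2⟩, h3⟩
      exact ⟨S.erase x, ⟨Finset.erase_subset_erase x h1, by rw [Finset.card_erase_of_mem h3]; omega⟩,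
        Finset.insert_erase h3⟩
    · rintro ⟨T, ⟨h1, h2⟩, rfl⟩
      have hxT : x ∉ T := fun h => Finset.notMem_erase x A (h1 h)
      refine ⟨⟨?_, by rw [Finset.card_insert_of_notMem hxT, h2]⟩, Finset.mem_insert_self _ _⟩
      exact Finset.insert_subset hx (h1.trans (Finset.erase_subset _ _))
  rw [this, Finset.card_image_of_injOn, Finset.card_powersetCard, Finset.card_erase_of_mem hx]
  intro S hS T hT h
  have hS' := (Finset.mem_powersetCard.1 hS).1
  have hT' := (Finset.mem_powersetCard.1 hT).1
  have h1 : x ∉ S := fun h => Finset.notMem_erase x A (hS' h)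
  have h2 : x ∉ T := fun h => Finset.notMem_erase x A (hT' h)
  rw [← Finset.erase_insert h1, ← Finset.erase_insert h2, h]

lemma card_pairs (N : V → Finset V) (hN : ∀ c, c ∉ N c) (r : ℕ) (x : V) :
    Nat.card (Pairs N (r + 1) x) = (N x).card.choose (r + 1) +
      ∑ c, if x ∈ N c then ((N c).card - 1).choose r else 0 := by
  classical
  let T : Finset (Σ _ : V, Finset V) := Finset.univ.sigma fun c =>
    ((N c).powersetCard (r + 1)).filter fun S => x = c ∨ x ∈ S
  have e : Pairs N (r + 1) x ≃ T :=
    { toFun := fun p => ⟨⟨p.1.1, p.1.2⟩, by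
        simp only [T, Finset.mem_sigma, Finset.mem_univ, true_and, Finset.mem_filter,
          Finset.mem_powersetCard]
        exact p.2⟩
      invFun := fun p => ⟨(p.1.1, p.1.2), by
        have := p.2
        simp only [T, Finset.mem_sigma, Finset.mem_univ, true_and, Finset.mem_filter,
          Finset.mem_powersetCard] at this
        exact this⟩
      left_inv := fun _ => rfl
      right_inv := fun _ => rfl }
  rw [Nat.card_congr e, Nat.card_eq_fintype_card, Fintype.card_coe, Finset.card_sigma]
  have h1 : ∀ c, (((N c).powersetCard (r + 1)).filter fun S => x = c ∨ x ∈ S).card =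
      (if x = c then (N x).card.choose (r + 1) else 0) +
        (if x ∈ N c then ((N c).card - 1).choose r else 0) := by
    intro c
    by_cases hxc : x = c
    · subst hxc
      rw [if_pos rfl, if_neg (hN x), add_zero]
      rw [Finset.filter_true_of_mem (fun S _ => Or.inl rfl), Finset.card_powersetCard]
    · rw [if_neg hxc, zero_add]
      have h2 : (((N c).powersetCard (r + 1)).filter fun S => x = c ∨ x ∈ S) =
          ((N c).powersetCard (r + 1)).filter fun S => x ∈ S :=
        Finset.filter_congr fun S _ => by simp [hxc]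
      rw [h2]
      split_ifs with hx
      · exact card_filter_mem _ _ hx r
      · rw [Finset.card_eq_zero, Finset.filter_eq_empty_iff]
        intro S hS hxS
        exact hx ((Finset.mem_powersetCard.1 hS).1 hxS)
  rw [Finset.sum_congr rfl fun c _ => h1 c, Finset.sum_add_distrib]
  simp

end Pairs

/-! ### Stars -/

section Star

variable {V : Type} [Fintype V] [DecidableEq V] (G : SimpleGraph V) [DecidableRel G.Adj]

/-- The star with centre `c` and leaves `S`. -/
def starSub (c : V) (S : Finset V) (hS : S ⊆ G.neighborFinset c) : G.Subgraph where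
  verts := {v | v = c ∨ v ∈ S}
  Adj u v := (u = c ∧ v ∈ S) ∨ (v = c ∧ u ∈ S)
  adj_sub := by
    rintro u v (⟨rfl, h⟩ | ⟨rfl, h⟩)
    · exact (G.mem_neighborFinset _ _).1 (hS h)
    · exact ((G.mem_neighborFinset _ _).1 (hS h)).symm
  edge_vert := by
    rintro u v (⟨rfl, h⟩ | ⟨rfl, h⟩)
    · exact Or.inl rfl
    · exact Or.inr h
  symm := ⟨by
    rintro u v (⟨rfl, h⟩ | ⟨rfl, h⟩)
    · exact Or.inr ⟨rfl, h⟩
    · exact Or.inl ⟨rfl, h⟩⟩

omit [DecidableEq V] in
lemma starSub_iso (c : V) (S : Finset V) (hS : S ⊆ G.neighborFinset c) (n : ℕ)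
    (hn : S.card = n) : Nonempty ((starSub G c S hS).coe ≃g star n) := by
  have hc : c ∉ S := fun h => G.irrefl ((G.mem_neighborFinset _ _).1 (hS h))
  let e : S ≃ Fin n := S.equivFinOfCardEq hn
  let f : Fin 1 ⊕ Fin n → (starSub G c S hS).verts := fun t => match t with
    | .inl _ => ⟨c, Or.inl rfl⟩
    | .inr i => ⟨(e.symm i : S).1, Or.inr (e.symm i).2⟩
  have hf : Function.Bijective f := by
    constructor
    · rintro (a | a) (b | b) h
      · rw [Subsingleton.elim a b]
      · have h' : c = (e.symm b).1 := congrArg Subtype.val h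
        exact absurd (h' ▸ (e.symm b).2) hc
      · have h' : (e.symm a).1 = c := congrArg Subtype.val h
        exact absurd (h' ▸ (e.symm a).2) hc
      · have h0 := congrArg Subtype.val h
        have h' : (e.symm a).1 = (e.symm b).1 := h0
        rw [e.symm.injective (Subtype.ext h')]
    · rintro ⟨v, hv⟩
      rcases hv with rfl | hv
      · exact ⟨.inl 0, rfl⟩
      · exact ⟨.inr (e ⟨v, hv⟩), by simp [f]⟩
  let E := Equiv.ofBijective f hf
  refine ⟨(⟨E, ?_⟩ : star n ≃g (starSub G c S hS).coe).symm⟩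
  intro a b
  show ((f a).1 = c ∧ (f b).1 ∈ S) ∨ ((f b).1 = c ∧ (f a).1 ∈ S) ↔ _
  rcases a with a | a <;> rcases b with b | b
  · simp [f, hc]
  · simp [f]
  · simp [f]
  · have h1 : ∀ i, (e.symm i : S).1 ≠ c := fun i h => hc (h ▸ (e.symm i).2)
    simp [f, h1]

lemma fdeg_star (n : ℕ) (hn : 2 ≤ n) (x : V) :
    fdeg (star n) G x = (G.degree x).choose n +
      ∑ c, if G.Adj x c then (G.degree c - 1).choose (n - 1) else 0 := by
  obtain ⟨r, rfl⟩ : ∃ r, n = r + 1 := ⟨n - 1, by omega⟩
  have key := card_pairs (fun c => G.neighborFinset c) (fun c => by simp) r x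
  have e : Pairs (fun c => G.neighborFinset c) (r + 1) x ≃
      {H : G.Subgraph // x ∈ H.verts ∧ Nonempty (H.coe ≃g star (r + 1))} := by
    refine Equiv.ofBijective (fun p => ⟨starSub G p.1.1 p.1.2 p.2.1.1, p.2.2,
      starSub_iso G _ _ _ _ p.2.1.2⟩) ⟨?_, ?_⟩
    · rintro ⟨⟨c, S⟩, ⟨h1, h2⟩, h3⟩ ⟨⟨c', S'⟩, ⟨h1', h2'⟩, h3'⟩ h
      have h4 := congrArg Subtype.val h
      simp only at h1 h2 h1' h2' h3 h3' h4
      have hadj : ∀ u v, ((u = c ∧ v ∈ S) ∨ (v = c ∧ u ∈ S)) ↔
          ((u = c' ∧ v ∈ S') ∨ (v = c' ∧ u ∈ S')) := by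
        intro u v
        have : (starSub G c S h1).Adj u v ↔ (starSub G c' S' h1').Adj u v := by rw [h4]
        exact this
      have hc : c ∉ S := fun h => G.irrefl ((G.mem_neighborFinset _ _).1 (h1 h))
      have hc' : c' ∉ S' := fun h => G.irrefl ((G.mem_neighborFinset _ _).1 (h1' h))
      have hcc : c = c' := by
        by_contra hne
        obtain ⟨u, hu, v, hv, huv⟩ := Finset.one_lt_card.1 (show 1 < S.card by omega)
        have a1 := (hadj c u).1 (Or.inl ⟨rfl, hu⟩)
        have a2 := (hadj c v).1 (Or.inl ⟨rfl, hv⟩)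
        rcases a1 with ⟨a1, -⟩ | ⟨a1, -⟩
        · exact hne a1
        · rcases a2 with ⟨a2, -⟩ | ⟨a2, -⟩
          · exact hne a2
          · exact huv (a1.trans a2.symm)
      subst hcc
      have hSS : S = S' := by
        ext v
        have := hadj c v
        simp only [true_and, hc, hc', and_false, or_false] at this
        exact this
      subst hSS
      rfl
    · rintro ⟨H, hx, ⟨φ⟩⟩
      let c : V := (φ.symm (.inl 0)).1
      let g : Fin (r + 1) → V := fun i => (φ.symm (.inr i)).1
      have hg : Function.Injective g := by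
        intro i j hij
        have := φ.symm.injective (Subtype.ext hij)
        exact Sum.inr_injective this
      let S : Finset V := Finset.univ.image g
      have hScard : S.card = r + 1 := by
        rw [Finset.card_image_of_injective _ hg]
        simp
      have hHadj : ∀ i, H.Adj c (g i) := by
        intro i
        have : (star (r + 1)).Adj (.inl 0) (.inr i) := by simp
        exact φ.symm.map_adj_iff.2 this
      have hS : S ⊆ G.neighborFinset c := by
        intro v hv
        obtain ⟨i, -, rfl⟩ := Finset.mem_image.1 hv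
        exact (G.mem_neighborFinset _ _).2 (H.adj_sub (hHadj i))
      have hverts : ∀ v, v ∈ H.verts ↔ v = c ∨ v ∈ S := by
        intro v
        constructor
        · intro hv
          rcases h : φ ⟨v, hv⟩ with i | i
          · left
            have h1 : φ.symm (φ ⟨v, hv⟩) = φ.symm (.inl i) := by rw [h]
            rw [φ.symm_apply_apply, Subsingleton.elim i 0] at h1
            exact congrArg Subtype.val h1
          · right
            have h1 : φ.symm (φ ⟨v, hv⟩) = φ.symm (.inr i) := by rw [h]
            rw [φ.symm_apply_apply] at h1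
            exact Finset.mem_image.2 ⟨i, Finset.mem_univ _, (congrArg Subtype.val h1).symm⟩
        · rintro (rfl | hv)
          · exact (φ.symm (.inl 0)).2
          · obtain ⟨i, -, rfl⟩ := Finset.mem_image.1 hv
            exact (φ.symm (.inr i)).2
      have hH : starSub G c S hS = H := by
        apply SimpleGraph.Subgraph.ext
        · ext v
          exact (hverts v).symm
        · funext u v
          apply propext
          constructor
          · rintro (⟨rfl, h⟩ | ⟨rfl, h⟩)
            · obtain ⟨i, -, rfl⟩ := Finset.mem_image.1 h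
              exact hHadj i
            · obtain ⟨i, -, rfl⟩ := Finset.mem_image.1 h
              exact (hHadj i).symm
          · intro h
            have hu := H.edge_vert h
            have hv := H.edge_vert h.symm
            have h1 : (star (r + 1)).Adj (φ ⟨u, hu⟩) (φ ⟨v, hv⟩) := φ.map_adj_iff.2 h
            rcases hu' : φ ⟨u, hu⟩ with i | i <;> rcases hv' : φ ⟨v, hv⟩ with j | j <;>
              rw [hu', hv'] at h1
            · simp at h1
            · left
              have a1 : φ.symm (φ ⟨u, hu⟩) = φ.symm (.inl i) := by rw [hu']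
              have a2 : φ.symm (φ ⟨v, hv⟩) = φ.symm (.inr j) := by rw [hv']
              rw [φ.symm_apply_apply, Subsingleton.elim i 0] at a1
              rw [φ.symm_apply_apply] at a2
              exact ⟨congrArg Subtype.val a1,
                Finset.mem_image.2 ⟨j, Finset.mem_univ _, (congrArg Subtype.val a2).symm⟩⟩
            · right
              have a1 : φ.symm (φ ⟨u, hu⟩) = φ.symm (.inr i) := by rw [hu']
              have a2 : φ.symm (φ ⟨v, hv⟩) = φ.symm (.inl j) := by rw [hv']
              rw [φ.symm_apply_apply] at a1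
              rw [φ.symm_apply_apply, Subsingleton.elim j 0] at a2
              exact ⟨congrArg Subtype.val a2,
                Finset.mem_image.2 ⟨i, Finset.mem_univ _, (congrArg Subtype.val a1).symm⟩⟩
            · simp at h1
      refine ⟨⟨(c, S), ⟨hS, hScard⟩, (hverts x).1 hx⟩, ?_⟩
      exact Subtype.ext hH
  unfold fdeg
  rw [← Nat.card_congr e, key]
  simp only [SimpleGraph.card_neighborFinset_eq_degree, SimpleGraph.mem_neighborFinset,
    Nat.add_sub_cancel]
  congr 1
  refine Finset.sum_congr rfl fun c _ => ?_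
  simp only [G.adj_comm c x]

end Star

/-! ### Cliques -/

section Clique

variable {V : Type} [Fintype V] [LinearOrder V] (G : SimpleGraph V) [DecidableRel G.Adj]

/-- The earlier neighbours. -/
def back (c : V) : Finset V := Finset.univ.filter fun v => v < c ∧ G.Adj v c

/-- The complete subgraph on a set. -/
def cliqueSub (c : V) (S : Finset V) (hS : S ⊆ back G c)
    (hG : ∀ c, ∀ u ∈ back G c, ∀ v ∈ back G c, u ≠ v → G.Adj u v) : G.Subgraph where
  verts := {v | v = c ∨ v ∈ S}
  Adj u v := u ≠ v ∧ (u = c ∨ u ∈ S) ∧ (v = c ∨ v ∈ S)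
  adj_sub := by
    rintro u v ⟨hne, rfl | hu, rfl | hv⟩
    · exact absurd rfl hne
    · exact ((Finset.mem_filter.1 (hS hv)).2.2).symm
    · exact (Finset.mem_filter.1 (hS hu)).2.2
    · exact hG c u (hS hu) v (hS hv) hne
  edge_vert := fun h => h.2.1
  symm := ⟨fun u v h => ⟨h.1.symm, h.2.2, h.2.1⟩⟩

lemma fdeg_clique (hG : ∀ c, ∀ u ∈ back G c, ∀ v ∈ back G c, u ≠ v → G.Adj u v)
    (n : ℕ) (hn : 2 ≤ n) (x : V) :
    fdeg (K n) G x = (back G x).card.choose (n - 1) +
      ∑ c, if x ∈ back G c then ((back G c).card - 1).choose (n - 2) else 0 := by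
  obtain ⟨r, rfl⟩ : ∃ r, n = r + 1 + 1 := ⟨n - 2, by omega⟩
  have hself : ∀ c, c ∉ back G c := fun c h => lt_irrefl _ (Finset.mem_filter.1 h).2.1
  have key := card_pairs (back G) hself r x
  have e : Pairs (back G) (r + 1) x ≃
      {H : G.Subgraph // x ∈ H.verts ∧ Nonempty (H.coe ≃g K (r + 1 + 1))} := by
    refine Equiv.ofBijective (fun p => ⟨cliqueSub G p.1.1 p.1.2 p.2.1.1 hG, p.2.2, ?_⟩) ⟨?_, ?_⟩
    · obtain ⟨⟨c, S⟩, ⟨h1, h2⟩, h3⟩ := p
      simp only at h1 h2 h3
      have hcS : c ∉ S := fun h => hself c (h1 h)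
      have hcard : Nat.card (cliqueSub G c S h1 hG).verts = r + 1 + 1 := by
        have : (cliqueSub G c S h1 hG).verts = ((insert c S : Finset V) : Set V) := by
          ext v
          simp [cliqueSub]
        rw [this, Nat.card_coe_set_eq, Set.ncard_coe_finset, Finset.card_insert_of_notMem hcS, h2]
      obtain ⟨E⟩ : Nonempty ((cliqueSub G c S h1 hG).verts ≃ Fin (r + 1 + 1)) :=
        ⟨Finite.equivFinOfCardEq hcard⟩
      refine ⟨⟨E, ?_⟩⟩
      intro a b
      show E a ≠ E b ↔ (a.1 ≠ b.1 ∧ (a.1 = c ∨ a.1 ∈ S) ∧ (b.1 = c ∨ b.1 ∈ S))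
      constructor
      · intro h
        exact ⟨fun h' => h (by rw [Subtype.ext h']), a.2, b.2⟩
      · rintro ⟨h, -, -⟩ h'
        exact h (congrArg Subtype.val (E.injective h'))
    · rintro ⟨⟨c, S⟩, ⟨h1, h2⟩, h3⟩ ⟨⟨c', S'⟩, ⟨h1', h2'⟩, h3'⟩ h
      have h4 := congrArg Subtype.val h
      simp only at h1 h2 h1' h2' h3 h3' h4
      have hv : ∀ v, (v = c ∨ v ∈ S) ↔ (v = c' ∨ v ∈ S') := by
        intro v
        have : v ∈ (cliqueSub G c S h1 hG).verts ↔ v ∈ (cliqueSub G c' S' h1' hG).verts := by
          rw [h4]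
        exact this
      have hcc : c = c' := by
        by_contra hne
        have a1 := ((hv c).1 (Or.inl rfl)).resolve_left hne
        have a2 := ((hv c').2 (Or.inl rfl)).resolve_left (Ne.symm hne)
        exact lt_asymm (Finset.mem_filter.1 (h1' a1)).2.1 (Finset.mem_filter.1 (h1 a2)).2.1
      subst hcc
      have hSS : S = S' := by
        ext v
        constructor
        · intro hvS
          refine ((hv v).1 (Or.inr hvS)).resolve_left ?_
          rintro rfl
          exact hself _ (h1 hvS)
        · intro hvS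
          refine ((hv v).2 (Or.inr hvS)).resolve_left ?_
          rintro rfl
          exact hself _ (h1' hvS)
      subst hSS
      rfl
    · rintro ⟨H, hx, ⟨φ⟩⟩
      classical
      let U : Finset V := Finset.univ.filter fun v => v ∈ H.verts
      have hU : ∀ v, v ∈ U ↔ v ∈ H.verts := fun v => by simp [U]
      have hUcard : U.card = r + 1 + 1 := by
        have h1 : Nat.card H.verts = r + 1 + 1 := by
          rw [Nat.card_congr φ.toEquiv, Nat.card_fin]
        have h2 : (U : Set V) = H.verts := by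
          ext v
          simp [U]
        rw [← h2, Nat.card_coe_set_eq, Set.ncard_coe_finset] at h1
        exact h1
      have hUne : U.Nonempty := Finset.card_pos.1 (by omega)
      have hadj : ∀ u v, u ∈ H.verts → v ∈ H.verts → u ≠ v → H.Adj u v := by
        intro u v hu hv huv
        have h1 : (K (r + 1 + 1)).Adj (φ ⟨u, hu⟩) (φ ⟨v, hv⟩) := by
          show φ ⟨u, hu⟩ ≠ φ ⟨v, hv⟩
          intro h
          exact huv (congrArg Subtype.val (φ.injective h))
        exact φ.map_adj_iff.1 h1
      let c := U.max' hUne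
      have hcU : c ∈ U := U.max'_mem hUne
      have hS : U.erase c ⊆ back G c := by
        intro v hv
        obtain ⟨h1, h2⟩ := Finset.mem_erase.1 hv
        refine Finset.mem_filter.2 ⟨Finset.mem_univ _, lt_of_le_of_ne (U.le_max' v h2) h1, ?_⟩
        exact H.adj_sub (hadj v c ((hU v).1 h2) ((hU c).1 hcU) h1)
      have hmem : ∀ v, (v = c ∨ v ∈ U.erase c) ↔ v ∈ H.verts := by
        intro v
        rw [← hU, Finset.mem_erase]
        constructor
        · rintro (rfl | h)
          · exact hcU
          · exact h.2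
        · intro h
          by_cases hvc : v = c
          · exact Or.inl hvc
          · exact Or.inr ⟨hvc, h⟩
      refine ⟨⟨(c, U.erase c), ⟨hS, ?_⟩, (hmem x).2 hx⟩, ?_⟩
      · rw [Finset.card_erase_of_mem hcU, hUcard]
        rfl
      · apply Subtype.ext
        apply SimpleGraph.Subgraph.ext
        · ext v
          exact hmem v
        · funext u v
          apply propext
          constructor
          · rintro ⟨h1, h2, h3⟩
            exact hadj u v ((hmem u).1 h2) ((hmem v).1 h3) h1
          · intro h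
            exact ⟨(H.adj_sub h).ne, (hmem u).2 (H.edge_vert h), (hmem v).2 (H.edge_vert h.symm)⟩
  unfold fdeg
  rw [← Nat.card_congr e, key]
  rfl

end Clique

/-! ### The clique-irregular graphs -/

/-- Adjacency of an earlier vertex `x` and a later vertex `y`, with `N = 2 * M + 1`: the vertices
`0, …, 2N - 1` form the `N`-th power of a path, vertex `2N` is adjacent to `0, …, M - 1` and vertex
`2N + 1` to `M, …, N - 1`. -/
def adjQ (M : ℕ) (x y : ℕ) : Prop :=
  x < y ∧ ((y < 2 * (2 * M + 1) ∧ y ≤ x + (2 * M + 1)) ∨ (y = 2 * (2 * M + 1) ∧ x < M) ∨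
    (y = 2 * (2 * M + 1) + 1 ∧ M ≤ x ∧ x < 2 * M + 1))

instance (M x y : ℕ) : Decidable (adjQ M x y) := by unfold adjQ; infer_instance

/-- The clique-irregular graphs. -/
def GQ (M : ℕ) : SimpleGraph (Fin (2 * (2 * M + 1) + 2)) where
  Adj x y := adjQ M x y ∨ adjQ M y x
  symm := ⟨fun x y h => h.symm⟩
  loopless := ⟨fun x h => by
    rcases h with h | h <;> exact lt_irrefl _ h.1⟩

instance (M : ℕ) : DecidableRel (GQ M).Adj := fun x y => by
  unfold GQ; infer_instance

lemma mem_back (M : ℕ) (x y : Fin (2 * (2 * M + 1) + 2)) : x ∈ back (GQ M) y ↔ adjQ M x y := by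
  unfold back
  simp only [Finset.mem_filter, Finset.mem_univ, true_and]
  constructor
  · rintro ⟨h1, h2 | h2⟩
    · exact h2
    · exact absurd h1 (not_lt.2 h2.1.le)
  · intro h
    exact ⟨h.1, Or.inl h⟩

lemma GQ_back (M : ℕ) : ∀ c, ∀ u ∈ back (GQ M) c, ∀ v ∈ back (GQ M) c, u ≠ v →
    (GQ M).Adj u v := by
  intro c u hu v hv huv
  rw [mem_back] at hu hv
  have huv' : (u : ℕ) ≠ v := fun h => huv (Fin.ext h)
  show adjQ M u v ∨ adjQ M v u
  unfold adjQ at *
  omega

/-- The number of earlier neighbours. -/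
def bq (M y : ℕ) : ℕ :=
  if y < 2 * (2 * M + 1) then min y (2 * M + 1) else if y = 2 * (2 * M + 1) then M else M + 1

lemma card_back (M : ℕ) (y : Fin (2 * (2 * M + 1) + 2)) : (back (GQ M) y).card = bq M y := by
  have h1 : (back (GQ M) y).map Fin.valEmbedding =
      (Finset.range (2 * (2 * M + 1) + 2)).filter fun x => adjQ M x y := by
    ext x
    simp only [Finset.mem_map, Finset.mem_filter, Finset.mem_range, Fin.valEmbedding_apply]
    constructor
    · rintro ⟨a, ha, rfl⟩
      exact ⟨a.2, (mem_back M a y).1 ha⟩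
    · rintro ⟨h1, h2⟩
      exact ⟨⟨x, h1⟩, (mem_back M ⟨x, h1⟩ y).2 h2, rfl⟩
  rw [← Finset.card_map Fin.valEmbedding, h1]
  have hy := y.2
  unfold bq
  split_ifs with h2 h3
  · have : (Finset.range (2 * (2 * M + 1) + 2)).filter (fun x => adjQ M x y) =
        Finset.Ico ((y : ℕ) - (2 * M + 1)) y := by
      ext x
      simp only [Finset.mem_filter, Finset.mem_range, Finset.mem_Ico, adjQ]
      omega
    rw [this, Nat.card_Ico]
    omega
  · have : (Finset.range (2 * (2 * M + 1) + 2)).filter (fun x => adjQ M x y) =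
        Finset.range M := by
      ext x
      simp only [Finset.mem_filter, Finset.mem_range, adjQ]
      omega
    rw [this, Finset.card_range]
  · have : (Finset.range (2 * (2 * M + 1) + 2)).filter (fun x => adjQ M x y) =
        Finset.Ico M (2 * M + 1) := by
      ext x
      simp only [Finset.mem_filter, Finset.mem_range, Finset.mem_Ico, adjQ]
      omega
    rw [this, Nat.card_Ico]
    omega

/-- The clique degree, as a number. -/
def fq (M r x : ℕ) : ℕ := (bq M x).choose (r + 1) +
  ∑ y ∈ Finset.range (2 * (2 * M + 1) + 2), if adjQ M x y then (bq M y - 1).choose r else 0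

lemma fdeg_GQ (M r : ℕ) (x : Fin (2 * (2 * M + 1) + 2)) :
    fdeg (K (r + 2)) (GQ M) x = fq M r x := by
  rw [fdeg_clique (GQ M) (GQ_back M) (r + 2) (by omega) x, card_back]
  unfold fq
  rw [Finset.sum_range]
  congr 1
  refine Finset.sum_congr rfl fun y _ => ?_
  rw [card_back]
  simp only [mem_back]
  rfl

lemma sum_choose_range (a r : ℕ) : ∑ y ∈ Finset.range a, y.choose r = a.choose (r + 1) := by
  induction a with
  | zero => simp
  | succ a ih => rw [Finset.sum_range_succ, ih, Nat.choose_succ_succ, add_comm]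

/-- The value on the first half. -/
lemma fq_left (M r x : ℕ) (hx : x < 2 * M + 1) : fq M r x =
    (2 * M).choose (r + 1) + (x + 1) * (2 * M).choose r +
      (if x < M then (M - 1).choose r else M.choose r) := by
  unfold fq
  have h0 : bq M x = x := by
    unfold bq
    rw [if_pos (by omega)]
    omega
  rw [h0, Finset.sum_range_succ, Finset.sum_range_succ]
  have h1 : (if adjQ M x (2 * (2 * M + 1)) then (bq M (2 * (2 * M + 1)) - 1).choose r else 0) =
      if x < M then (M - 1).choose r else 0 := by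
    have : bq M (2 * (2 * M + 1)) = M := by simp [bq]
    rw [this]
    refine if_congr ?_ rfl rfl
    unfold adjQ
    omega
  have h2 : (if adjQ M x (2 * (2 * M + 1) + 1) then (bq M (2 * (2 * M + 1) + 1) - 1).choose r
      else 0) = if x < M then 0 else M.choose r := by
    have : bq M (2 * (2 * M + 1) + 1) = M + 1 := by simp [bq]
    rw [this, Nat.add_sub_cancel]
    by_cases h : x < M
    · rw [if_neg (by unfold adjQ; omega), if_pos h]
    · rw [if_pos (by unfold adjQ; omega), if_neg h]
  have h3 : ∑ y ∈ Finset.range (2 * (2 * M + 1)), (if adjQ M x y then (bq M y - 1).choose r else 0)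
      + x.choose (r + 1) = (2 * M).choose (r + 1) + (x + 1) * (2 * M).choose r := by
    have e1 : Finset.range (2 * (2 * M + 1)) = Finset.range (x + 1) ∪
        (Finset.Ico (x + 1) (2 * M + 1) ∪ (Finset.Ico (2 * M + 1) (x + (2 * M + 1) + 1) ∪
          Finset.Ico (x + (2 * M + 1) + 1) (2 * (2 * M + 1)))) := by
      ext y
      simp only [Finset.mem_union, Finset.mem_range, Finset.mem_Ico]
      omega
    have d1 : Disjoint (Finset.range (x + 1)) (Finset.Ico (x + 1) (2 * M + 1) ∪
        (Finset.Ico (2 * M + 1) (x + (2 * M + 1) + 1) ∪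
          Finset.Ico (x + (2 * M + 1) + 1) (2 * (2 * M + 1)))) := by
      rw [Finset.disjoint_left]
      intro y
      simp only [Finset.mem_union, Finset.mem_range, Finset.mem_Ico]
      omega
    have d2 : Disjoint (Finset.Ico (x + 1) (2 * M + 1))
        (Finset.Ico (2 * M + 1) (x + (2 * M + 1) + 1) ∪
          Finset.Ico (x + (2 * M + 1) + 1) (2 * (2 * M + 1))) := by
      rw [Finset.disjoint_left]
      intro y
      simp only [Finset.mem_union, Finset.mem_Ico]
      omega
    have d3 : Disjoint (Finset.Ico (2 * M + 1) (x + (2 * M + 1) + 1))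
        (Finset.Ico (x + (2 * M + 1) + 1) (2 * (2 * M + 1))) := by
      rw [Finset.disjoint_left]
      intro y
      simp only [Finset.mem_Ico]
      omega
    rw [e1, Finset.sum_union d1, Finset.sum_union d2, Finset.sum_union d3]
    have s1 : ∑ y ∈ Finset.range (x + 1), (if adjQ M x y then (bq M y - 1).choose r else 0) = 0 := by
      refine Finset.sum_eq_zero fun y hy => if_neg ?_
      rw [Finset.mem_range] at hy
      unfold adjQ
      omega
    have s2 : ∑ y ∈ Finset.Ico (x + 1) (2 * M + 1),
        (if adjQ M x y then (bq M y - 1).choose r else 0) + x.choose (r + 1) =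
        (2 * M).choose (r + 1) := by
      have : ∀ y ∈ Finset.Ico (x + 1) (2 * M + 1),
          (if adjQ M x y then (bq M y - 1).choose r else 0) = (y - 1).choose r := by
        intro y hy
        rw [Finset.mem_Ico] at hy
        rw [if_pos (by unfold adjQ; omega)]
        congr 1
        unfold bq
        rw [if_pos (by omega)]
        omega
      have hshift : ∑ y ∈ Finset.Ico (x + 1) (2 * M + 1), (y - 1).choose r =
          ∑ y ∈ Finset.Ico x (2 * M), y.choose r := by
        rw [Finset.sum_Ico_eq_sum_range, Finset.sum_Ico_eq_sum_range,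
          show 2 * M + 1 - (x + 1) = 2 * M - x by omega]
        refine Finset.sum_congr rfl fun i _ => ?_
        congr 1
        omega
      rw [Finset.sum_congr rfl this, hshift, ← sum_choose_range x r, ← sum_choose_range (2 * M) r,
        add_comm, Finset.sum_range_add_sum_Ico _ (by omega)]
    have s3 : ∑ y ∈ Finset.Ico (2 * M + 1) (x + (2 * M + 1) + 1),
        (if adjQ M x y then (bq M y - 1).choose r else 0) = (x + 1) * (2 * M).choose r := by
      have : ∀ y ∈ Finset.Ico (2 * M + 1) (x + (2 * M + 1) + 1),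
          (if adjQ M x y then (bq M y - 1).choose r else 0) = (2 * M).choose r := by
        intro y hy
        rw [Finset.mem_Ico] at hy
        rw [if_pos (by unfold adjQ; omega)]
        congr 1
        unfold bq
        rw [if_pos (by omega)]
        omega
      rw [Finset.sum_congr rfl this, Finset.sum_const, Nat.card_Ico, smul_eq_mul]
      congr 1
      omega
    have s4 : ∑ y ∈ Finset.Ico (x + (2 * M + 1) + 1) (2 * (2 * M + 1)),
        (if adjQ M x y then (bq M y - 1).choose r else 0) = 0 := by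
      refine Finset.sum_eq_zero fun y hy => if_neg ?_
      rw [Finset.mem_Ico] at hy
      unfold adjQ
      omega
    rw [s1, s3, s4]
    omega
  rw [h1, h2]
  split_ifs with h <;> omega

/-- The value on the second half. -/
lemma fq_right (M r x : ℕ) (hx : 2 * M + 1 ≤ x) (hx' : x < 2 * (2 * M + 1)) : fq M r x =
    (2 * M).choose (r + 1) + (2 * (2 * M + 1) - x) * (2 * M).choose r := by
  unfold fq
  have h0 : bq M x = 2 * M + 1 := by
    unfold bq
    rw [if_pos (by omega)]
    omega
  rw [h0]
  have h1 : ∀ y ∈ Finset.range (2 * (2 * M + 1) + 2), (if adjQ M x y then (bq M y - 1).choose r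
      else 0) = if y ∈ Finset.Ico (x + 1) (2 * (2 * M + 1)) then (2 * M).choose r else 0 := by
    intro y _
    by_cases h : y ∈ Finset.Ico (x + 1) (2 * (2 * M + 1))
    · rw [if_pos h]
      rw [Finset.mem_Ico] at h
      rw [if_pos (by unfold adjQ; omega)]
      congr 1
      unfold bq
      rw [if_pos (by omega)]
      omega
    · rw [if_neg h]
      rw [Finset.mem_Ico] at h
      rw [if_neg (by unfold adjQ; omega)]
  rw [Finset.sum_congr rfl h1, Finset.sum_ite_mem, Finset.sum_const, smul_eq_mul]
  have h2 : Finset.range (2 * (2 * M + 1) + 2) ∩ Finset.Ico (x + 1) (2 * (2 * M + 1)) =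
      Finset.Ico (x + 1) (2 * (2 * M + 1)) := by
    ext y
    simp only [Finset.mem_inter, Finset.mem_range, Finset.mem_Ico]
    omega
  rw [h2, Nat.card_Ico, Nat.choose_succ_succ]
  obtain ⟨d, hd⟩ : ∃ d, 2 * (2 * M + 1) - x = d + 1 := ⟨2 * (2 * M + 1) - x - 1, by omega⟩
  rw [show 2 * (2 * M + 1) - (x + 1) = d by omega, hd]
  ring

lemma fq_z (M r x : ℕ) (hx : 2 * (2 * M + 1) ≤ x) : fq M r x = (bq M x).choose (r + 1) := by
  unfold fq
  rw [Finset.sum_eq_zero, add_zero]
  intro y hy
  rw [Finset.mem_range] at hy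
  rw [if_neg (by unfold adjQ; omega)]

lemma irregular_GQ (r M : ℕ) (hr : 1 ≤ r) (hM : r + 1 ≤ M) : Irregular (K (r + 2)) (GQ M) := by
  -- positivity and monotonicity facts
  have hM2 : 2 ≤ M := by omega
  have p1 : 0 < (M - 1).choose r := Nat.choose_pos (by omega)
  have mono : ∀ a b, r ≤ a → a < b → a.choose r < b.choose r := by
    intro a b ha hab
    obtain ⟨s, rfl⟩ : ∃ s, r = s + 1 := ⟨r - 1, by omega⟩
    induction b, hab using Nat.le_induction with
    | base =>
      rw [Nat.choose_succ_succ']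
      have : 0 < a.choose s := Nat.choose_pos (by omega)
      omega
    | succ b hb ih =>
      rw [Nat.choose_succ_succ']
      omega
  have p2 : (M - 1).choose r < (2 * M).choose r := mono _ _ (by omega) (by omega)
  have p3 : M.choose r < (2 * M).choose r := mono _ _ (by omega) (by omega)
  have p4 : 0 < M.choose r := Nat.choose_pos (by omega)
  have p5 : M.choose (r + 1) < (M + 1).choose (r + 1) := by
    rw [Nat.choose_succ_succ']
    omega
  have p6 : (M + 1).choose (r + 1) ≤ (2 * M).choose (r + 1) :=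
    Nat.choose_le_choose _ (by omega)
  have hz1 : fq M r (2 * (2 * M + 1)) = M.choose (r + 1) := by
    rw [fq_z M r _ (le_refl _)]
    simp [bq]
  have hz2 : fq M r (2 * (2 * M + 1) + 1) = (M + 1).choose (r + 1) := by
    rw [fq_z M r _ (by omega)]
    simp [bq]
  set Δ := (2 * M).choose r with hΔ
  -- the values
  have hL : ∀ x, x < 2 * M + 1 → ∃ s, 0 < s ∧ s < Δ ∧
      fq M r x = (2 * M).choose (r + 1) + (x + 1) * Δ + s := by
    intro x hx
    rw [fq_left M r x hx]
    split_ifs with h
    · exact ⟨_, p1, p2, rfl⟩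
    · exact ⟨_, p4, p3, rfl⟩
  have hR : ∀ x, 2 * M + 1 ≤ x → x < 2 * (2 * M + 1) → ∃ t, 1 ≤ t ∧ t = 2 * (2 * M + 1) - x ∧
      fq M r x = (2 * M).choose (r + 1) + t * Δ := by
    intro x hx hx'
    exact ⟨_, by omega, rfl, fq_right M r x hx hx'⟩
  have hZ : ∀ x, 2 * (2 * M + 1) ≤ x → x < 2 * (2 * M + 1) + 2 →
      fq M r x ≤ (2 * M).choose (r + 1) := by
    intro x hx hx'
    rcases (show x = 2 * (2 * M + 1) ∨ x = 2 * (2 * M + 1) + 1 by omega) with rfl | rfl
    · rw [hz1]; omega
    · rw [hz2]; omega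
  have main : ∀ x y, x < y → y < 2 * (2 * M + 1) + 2 → fq M r x ≠ fq M r y := by
    intro x y hxy hy he
    rcases Nat.lt_or_ge y (2 * (2 * M + 1)) with h1 | h1
    · rcases Nat.lt_or_ge x (2 * M + 1) with h2 | h2
      · obtain ⟨s, hs1, hs2, hs3⟩ := hL x h2
        rcases Nat.lt_or_ge y (2 * M + 1) with h3 | h3
        · obtain ⟨s', hs1', hs2', hs3'⟩ := hL y h3
          rw [hs3, hs3'] at he
          obtain ⟨d, rfl⟩ : ∃ d, y = x + 1 + d := ⟨y - (x + 1), by omega⟩
          nlinarith
        · obtain ⟨t, ht1, -, ht3⟩ := hR y h3 h1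
          rw [hs3, ht3] at he
          rcases Nat.lt_or_ge (x + 1) t with h4 | h4
          · have : (x + 1 + 1) * Δ ≤ t * Δ := Nat.mul_le_mul_right _ h4
            nlinarith
          · have : t * Δ ≤ (x + 1) * Δ := Nat.mul_le_mul_right _ h4
            omega
      · obtain ⟨t, ht1, ht2, ht3⟩ := hR x h2 (by omega)
        obtain ⟨t', ht1', ht2', ht3'⟩ := hR y (by omega) h1
        rw [ht3, ht3'] at he
        have h5 : t' < t := by omega
        have : (t' + 1) * Δ ≤ t * Δ := Nat.mul_le_mul_right _ h5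
        nlinarith
    · rcases Nat.lt_or_ge x (2 * (2 * M + 1)) with h2 | h2
      · have h3 := hZ y h1 hy
        rcases Nat.lt_or_ge x (2 * M + 1) with h4 | h4
        · obtain ⟨s, hs1, hs2, hs3⟩ := hL x h4
          rw [he] at hs3
          omega
        · obtain ⟨t, ht1, ht2, ht3⟩ := hR x h4 h2
          rw [he] at ht3
          have : 1 * Δ ≤ t * Δ := Nat.mul_le_mul_right _ ht1
          omega
      · have h3 : x = 2 * (2 * M + 1) := by omega
        have h4 : y = 2 * (2 * M + 1) + 1 := by omega
        rw [h3, h4, hz1, hz2] at he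
        omega
  intro x y hxy
  rw [fdeg_GQ, fdeg_GQ]
  have hne : (x : ℕ) ≠ y := fun h => hxy (Fin.ext h)
  rcases lt_or_gt_of_ne hne with h | h
  · exact main x y h y.2
  · exact (main y x h x.2).symm

/-! ### The star-irregular graphs -/

/-- The vertices `a_i`, `b_j` (`i, j < 2M`) and one further vertex. -/
abbrev VS (M : ℕ) : Type := Fin (2 * M) ⊕ (Fin (2 * M) ⊕ Unit)

/-- The star-irregular graphs: `a_i` is adjacent to `b_j` for `i ≤ j`, and the further vertex is
adjacent to `a_0` and `a_{M-1}`. -/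
def GS (M : ℕ) : SimpleGraph (VS M) where
  Adj
    | .inl _, .inl _ => False
    | .inl i, .inr (.inl j) => (i : ℕ) ≤ j
    | .inr (.inl j), .inl i => (i : ℕ) ≤ j
    | .inl i, .inr (.inr _) => (i : ℕ) = 0 ∨ (i : ℕ) = M - 1
    | .inr (.inr _), .inl i => (i : ℕ) = 0 ∨ (i : ℕ) = M - 1
    | .inr _, .inr _ => False
  symm := ⟨by rintro (x | x | x) (y | y | y) h <;> exact h⟩
  loopless := ⟨by rintro (x | x | x) h <;> exact h⟩

instance (M : ℕ) : DecidableRel (GS M).Adj := fun x y => by
  rcases x with x | x | x <;> rcases y with y | y | y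
  · exact isFalse id
  · exact inferInstanceAs (Decidable ((x : ℕ) ≤ y))
  · exact inferInstanceAs (Decidable ((x : ℕ) = 0 ∨ (x : ℕ) = M - 1))
  · exact inferInstanceAs (Decidable ((y : ℕ) ≤ x))
  · exact isFalse id
  · exact isFalse id
  · exact inferInstanceAs (Decidable ((y : ℕ) = 0 ∨ (y : ℕ) = M - 1))
  · exact isFalse id
  · exact isFalse id

lemma sum_nbr (M : ℕ) (x : VS M) (h : VS M → ℕ) : (∑ y, if (GS M).Adj x y then h y else 0) =
    match x with
    | .inl i => (∑ j ∈ Finset.Ico (i : ℕ) (2 * M), if hj : j < 2 * M then h (.inr (.inl ⟨j, hj⟩))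
        else 0) + if (i : ℕ) = 0 ∨ (i : ℕ) = M - 1 then h (.inr (.inr ())) else 0
    | .inr (.inl j) => ∑ i ∈ Finset.range (j + 1), if hi : i < 2 * M then h (.inl ⟨i, hi⟩) else 0
    | .inr (.inr _) => ∑ i ∈ Finset.range (2 * M), if i = 0 ∨ i = M - 1 then
        (if hi : i < 2 * M then h (.inl ⟨i, hi⟩) else 0) else 0 := by
  rcases x with i | j | u
  · rw [Fintype.sum_sum_type, Fintype.sum_sum_type]
    have h1 : ∑ y : Fin (2 * M), (if (GS M).Adj (.inl i) (.inl y) then h (.inl y) else 0) = 0 :=
      Finset.sum_eq_zero fun y _ => if_neg id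
    rw [h1, zero_add]
    congr 1
    · obtain ⟨F, hF⟩ : ∃ F : ℕ → ℕ, F = fun t : ℕ => if (i : ℕ) ≤ t then (if ht : t < 2 * M then
            h (.inr (.inl ⟨t, ht⟩)) else 0) else 0 := ⟨_, rfl⟩
      have h2 : ∀ y : Fin (2 * M), (if (GS M).Adj (.inl i) (.inr (.inl y)) then h (.inr (.inl y))
          else 0) = F y := by
        intro y
        show (if (i : ℕ) ≤ y then h (.inr (.inl y)) else 0) = _
        simp [hF]
      rw [Finset.sum_congr rfl fun y _ => h2 y, ← Finset.sum_range F, hF, ← Finset.sum_filter]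
      refine Finset.sum_congr ?_ fun _ _ => rfl
      ext t
      simp only [Finset.mem_filter, Finset.mem_range, Finset.mem_Ico]
      omega
  · rw [Fintype.sum_sum_type, Fintype.sum_sum_type]
    have h1 : ∑ y : Fin (2 * M), (if (GS M).Adj (.inr (.inl j)) (.inr (.inl y)) then
        h (.inr (.inl y)) else 0) = 0 := Finset.sum_eq_zero fun y _ => if_neg id
    have h3 : ∑ y : Unit, (if (GS M).Adj (.inr (.inl j)) (.inr (.inr y)) then
        h (.inr (.inr y)) else 0) = 0 := Finset.sum_eq_zero fun y _ => if_neg id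
    rw [h1, h3, add_zero, add_zero]
    obtain ⟨F, hF⟩ : ∃ F : ℕ → ℕ, F = fun t : ℕ => if t ≤ (j : ℕ) then (if ht : t < 2 * M then
          h (.inl ⟨t, ht⟩) else 0) else 0 := ⟨_, rfl⟩
    have h2 : ∀ y : Fin (2 * M), (if (GS M).Adj (.inr (.inl j)) (.inl y) then h (.inl y)
        else 0) = F y := by
      intro y
      show (if (y : ℕ) ≤ j then h (.inl y) else 0) = _
      simp [hF]
    rw [Finset.sum_congr rfl fun y _ => h2 y, ← Finset.sum_range F, hF, ← Finset.sum_filter]
    refine Finset.sum_congr ?_ fun _ _ => rfl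
    ext t
    have := j.2
    simp only [Finset.mem_filter, Finset.mem_range]
    omega
  · rw [Fintype.sum_sum_type, Fintype.sum_sum_type]
    have h1 : ∑ y : Fin (2 * M), (if (GS M).Adj (.inr (.inr u)) (.inr (.inl y)) then
        h (.inr (.inl y)) else 0) = 0 := Finset.sum_eq_zero fun y _ => if_neg id
    have h3 : ∑ y : Unit, (if (GS M).Adj (.inr (.inr u)) (.inr (.inr y)) then
        h (.inr (.inr y)) else 0) = 0 := Finset.sum_eq_zero fun y _ => if_neg id
    rw [h1, h3, add_zero, add_zero]
    obtain ⟨F, hF⟩ : ∃ F : ℕ → ℕ, F = fun t : ℕ => if t = 0 ∨ t = M - 1 then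
        (if ht : t < 2 * M then h (.inl ⟨t, ht⟩) else 0) else 0 := ⟨_, rfl⟩
    have h2 : ∀ y : Fin (2 * M), (if (GS M).Adj (.inr (.inr u)) (.inl y) then h (.inl y)
        else 0) = F y := by
      intro y
      show (if (y : ℕ) = 0 ∨ (y : ℕ) = M - 1 then h (.inl y) else 0) = _
      simp [hF]
    rw [Finset.sum_congr rfl fun y _ => h2 y, ← Finset.sum_range F, hF]

/-- The correction of the degrees. -/
def ee (M i : ℕ) : ℕ := if i = 0 ∨ i = M - 1 then 1 else 0

lemma degree_eq (M : ℕ) (x : VS M) : (GS M).degree x = ∑ y, if (GS M).Adj x y then 1 else 0 := by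
  rw [← SimpleGraph.card_neighborFinset_eq_degree, SimpleGraph.neighborFinset_eq_filter,
    Finset.card_filter]

lemma deg_a (M : ℕ) (i : Fin (2 * M)) : (GS M).degree (.inl i) = 2 * M - i + ee M i := by
  rw [degree_eq, sum_nbr]
  simp only
  congr 1
  rw [Finset.sum_congr rfl (g := fun _ => 1), Finset.sum_const, Nat.card_Ico, smul_eq_mul, mul_one]
  intro j hj
  rw [dif_pos (Finset.mem_Ico.1 hj).2]

lemma deg_b (M : ℕ) (j : Fin (2 * M)) : (GS M).degree (.inr (.inl j)) = j + 1 := by
  rw [degree_eq, sum_nbr]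
  simp only
  rw [Finset.sum_congr rfl (g := fun _ => 1), Finset.sum_const, Finset.card_range, smul_eq_mul,
    mul_one]
  intro i hi
  have := j.2
  rw [dif_pos (by rw [Finset.mem_range] at hi; omega)]

lemma sum_two (M : ℕ) (hM : 2 ≤ M) (h : ℕ → ℕ) :
    (∑ i ∈ Finset.range (2 * M), if i = 0 ∨ i = M - 1 then h i else 0) = h 0 + h (M - 1) := by
  rw [← Finset.sum_filter]
  have : (Finset.range (2 * M)).filter (fun i => i = 0 ∨ i = M - 1) = {0, M - 1} := by
    ext i
    simp only [Finset.mem_filter, Finset.mem_range, Finset.mem_insert, Finset.mem_singleton]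
    omega
  rw [this, Finset.sum_pair (by omega)]

lemma deg_z (M : ℕ) (hM : 2 ≤ M) (u : Unit) : (GS M).degree (.inr (.inr u)) = 2 := by
  rw [degree_eq, sum_nbr]
  simp only
  rw [sum_two M hM (fun i => if hi : i < 2 * M then 1 else 0)]
  rw [dif_pos (by omega), dif_pos (by omega)]

/-- The increasing reference function. -/
def gg (M r k : ℕ) : ℕ := k.choose (r + 2) + ∑ t ∈ Finset.Ico (2 * M - k) (2 * M), t.choose (r + 1)

lemma gg_succ (M r k : ℕ) (hk : k < 2 * M) :
    gg M r (k + 1) = gg M r k + (k.choose (r + 1) + (2 * M - k - 1).choose (r + 1)) := by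
  unfold gg
  have h1 : 2 * M - (k + 1) < 2 * M := by omega
  rw [Finset.sum_eq_sum_Ico_succ_bot h1, show 2 * M - (k + 1) + 1 = 2 * M - k by omega,
    show 2 * M - (k + 1) = 2 * M - k - 1 by omega, Nat.choose_succ_succ' k (r + 1)]
  ring

lemma fdeg_a (M r : ℕ) (hM : 2 ≤ M) (i : Fin (2 * M)) : fdeg (star (r + 2)) (GS M) (.inl i) =
    gg M r (2 * M - i) + (if (i : ℕ) = 0 ∨ (i : ℕ) = M - 1 then
      (2 * M - i).choose (r + 1) + Nat.choose 1 (r + 1) else 0) := by
  rw [fdeg_star _ _ (by omega), deg_a, sum_nbr]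
  have hi := i.2
  have h1 : ∑ j ∈ Finset.Ico (i : ℕ) (2 * M), (if hj : j < 2 * M then
      ((GS M).degree (.inr (.inl ⟨j, hj⟩)) - 1).choose (r + 2 - 1) else 0) =
      ∑ t ∈ Finset.Ico (2 * M - (2 * M - (i : ℕ))) (2 * M), t.choose (r + 1) := by
    rw [show 2 * M - (2 * M - (i : ℕ)) = i by omega]
    refine Finset.sum_congr rfl fun j hj => ?_
    rw [dif_pos (Finset.mem_Ico.1 hj).2, deg_b]
    rfl
  simp only
  rw [h1, deg_z M hM]
  unfold gg ee
  split_ifs with h
  · rw [Nat.choose_succ_succ' (2 * M - i) (r + 1)]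
    show _ + (_ + Nat.choose 1 (r + 1)) = _
    ring
  · rfl

lemma fdeg_b (M r : ℕ) (hM : 2 ≤ M) (j : Fin (2 * M)) :
    fdeg (star (r + 2)) (GS M) (.inr (.inl j)) =
    gg M r (j + 1) + ((2 * M - 1).choose r + if M - 1 ≤ j then M.choose r else 0) := by
  rw [fdeg_star _ _ (by omega), deg_b, sum_nbr]
  have hj := j.2
  simp only
  have h1 : ∀ i ∈ Finset.range (j + 1), (if hi : i < 2 * M then
      ((GS M).degree (.inl ⟨i, hi⟩) - 1).choose (r + 2 - 1) else 0) =
      (2 * M - 1 - i).choose (r + 1) +
        (if i = 0 ∨ i = M - 1 then (2 * M - 1 - i).choose r else 0) := by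
    intro i hi
    rw [Finset.mem_range] at hi
    rw [dif_pos (by omega), deg_a]
    unfold ee
    show (2 * M - i + (if i = 0 ∨ i = M - 1 then 1 else 0) - 1).choose (r + 1) = _
    split_ifs with h
    · rw [show 2 * M - i + 1 - 1 = (2 * M - 1 - i) + 1 by omega, Nat.choose_succ_succ', add_comm]
    · rw [show 2 * M - i + 0 - 1 = 2 * M - 1 - i by omega, add_zero]
  rw [Finset.sum_congr rfl h1, Finset.sum_add_distrib]
  have h2 : ∑ i ∈ Finset.range (j + 1), (2 * M - 1 - i).choose (r + 1) =
      ∑ t ∈ Finset.Ico (2 * M - ((j : ℕ) + 1)) (2 * M), t.choose (r + 1) := by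
    rw [← Finset.sum_range_reflect, Finset.sum_Ico_eq_sum_range,
      show 2 * M - (2 * M - ((j : ℕ) + 1)) = j + 1 by omega]
    refine Finset.sum_congr rfl fun i hi => ?_
    rw [Finset.mem_range] at hi
    congr 1
    omega
  have h3 : ∑ i ∈ Finset.range (j + 1), (if i = 0 ∨ i = M - 1 then (2 * M - 1 - i).choose r
      else 0) = (2 * M - 1).choose r + if M - 1 ≤ j then M.choose r else 0 := by
    rw [← Finset.sum_filter]
    split_ifs with h
    · have : (Finset.range (j + 1)).filter (fun i => i = 0 ∨ i = M - 1) = {0, M - 1} := by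
        ext i
        simp only [Finset.mem_filter, Finset.mem_range, Finset.mem_insert, Finset.mem_singleton]
        omega
      rw [this, Finset.sum_pair (by omega), show 2 * M - 1 - 0 = 2 * M - 1 by omega,
        show 2 * M - 1 - (M - 1) = M by omega]
    · have : (Finset.range (j + 1)).filter (fun i => i = 0 ∨ i = M - 1) = {0} := by
        ext i
        simp only [Finset.mem_filter, Finset.mem_range, Finset.mem_singleton]
        omega
      rw [this, Finset.sum_singleton, show 2 * M - 1 - 0 = 2 * M - 1 by omega, add_zero]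
  rw [h2, h3]
  unfold gg
  ring

lemma fdeg_z (M r : ℕ) (hM : 2 ≤ M) (u : Unit) : fdeg (star (r + 2)) (GS M) (.inr (.inr u)) =
    gg M r 1 + (Nat.choose 2 (r + 2) + (2 * M - 1).choose r + (M + 1).choose (r + 1)) := by
  rw [fdeg_star _ _ (by omega), deg_z M hM, sum_nbr]
  simp only
  have h1 : ∀ i ∈ Finset.range (2 * M), (if i = 0 ∨ i = M - 1 then (if hi : i < 2 * M then
      ((GS M).degree (.inl ⟨i, hi⟩) - 1).choose (r + 2 - 1) else 0) else 0) =
      if i = 0 ∨ i = M - 1 then (2 * M - i).choose (r + 1) else 0 := by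
    intro i hi
    rw [Finset.mem_range] at hi
    split_ifs with h
    · rw [deg_a]
      unfold ee
      show (2 * M - i + (if i = 0 ∨ i = M - 1 then 1 else 0) - 1).choose (r + 1) = _
      rw [if_pos h]
      rfl
    · rfl
  rw [Finset.sum_congr rfl h1, sum_two M hM (fun i => (2 * M - i).choose (r + 1))]
  unfold gg
  rw [show 2 * M - (M - 1) = M + 1 by omega, Finset.sum_eq_sum_Ico_succ_bot (by omega)]
  rw [show 2 * M - 1 + 1 = 2 * M by omega, Finset.Ico_self, Finset.sum_empty]
  have h2 : (2 * M - 0).choose (r + 1) = (2 * M - 1).choose r + (2 * M - 1).choose (r + 1) := by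
    rw [show 2 * M - 0 = (2 * M - 1) + 1 by omega, Nat.choose_succ_succ']
  have h3 : Nat.choose 1 (r + 2) = 0 := Nat.choose_eq_zero_of_lt (by omega)
  rw [h2, h3]
  ring

lemma choose_superadd (s : ℕ) (a b : ℕ) : a.choose (s + 1) + b.choose (s + 1) ≤
    (a + b).choose (s + 1) := by
  induction b with
  | zero => simp
  | succ b ih =>
    rw [← add_assoc, Nat.choose_succ_succ' (a + b), Nat.choose_succ_succ' b]
    have : b.choose s ≤ (a + b).choose s := Nat.choose_le_choose _ (by omega)
    omega

/-- The level of a vertex. -/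
def lev (M : ℕ) : VS M → ℕ
  | .inl i => 2 * M - i
  | .inr (.inl j) => j + 1
  | .inr (.inr _) => 1

/-- The offset of a vertex. -/
def off (M r : ℕ) : VS M → ℕ
  | .inl i => if (i : ℕ) = 0 ∨ (i : ℕ) = M - 1 then
      (2 * M - i).choose (r + 1) + Nat.choose 1 (r + 1) else 0
  | .inr (.inl j) => (2 * M - 1).choose r + if M - 1 ≤ j then M.choose r else 0
  | .inr (.inr _) => Nat.choose 2 (r + 2) + (2 * M - 1).choose r + (M + 1).choose (r + 1)

lemma fdeg_GS (M r : ℕ) (hM : 2 ≤ M) (v : VS M) :
    fdeg (star (r + 2)) (GS M) v = gg M r (lev M v) + off M r v := by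
  rcases v with i | j | u
  · exact fdeg_a M r hM i
  · exact fdeg_b M r hM j
  · exact fdeg_z M r hM u

lemma irregular_GS (r M : ℕ)
    (hM : (2 * M - 1).choose r + M.choose r + 2 ≤ (M - 3).choose (r + 1)) :
    Irregular (star (r + 2)) (GS M) := by
  have hM4 : r + 4 ≤ M := by
    by_contra h
    have : (M - 3).choose (r + 1) = 0 := Nat.choose_eq_zero_of_lt (by omega)
    omega
  have hc1 : Nat.choose 1 (r + 1) ≤ 1 := by
    rcases r with _ | r
    · simp
    · rw [Nat.choose_eq_zero_of_lt (by omega)]; omega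
  have hc2 : Nat.choose 2 (r + 2) ≤ 1 := by
    rcases r with _ | r
    · simp
    · rw [Nat.choose_eq_zero_of_lt (by omega)]; omega
  set A := (M - 3).choose (r + 1) with hA
  set B := (2 * M - 1).choose r with hB
  set C := M.choose r with hC
  have hBpos : 0 < B := Nat.choose_pos (by omega)
  have hmono : ∀ a, M - 3 ≤ a → A ≤ a.choose (r + 1) := fun a ha => Nat.choose_le_choose _ ha
  have hI : ∀ k, k < 2 * M → B + C + 2 ≤ k.choose (r + 1) + (2 * M - k - 1).choose (r + 1) := by
    intro k hk
    rcases Nat.lt_or_ge k M with h | h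
    · have := hmono (2 * M - k - 1) (by omega)
      omega
    · have := hmono k (by omega)
      omega
  have hgmono : ∀ k l, k ≤ l → l ≤ 2 * M → gg M r k ≤ gg M r l := by
    intro k l hkl
    induction l, hkl using Nat.le_induction with
    | base => exact fun _ => le_refl _
    | succ l hl ih =>
      intro h
      rw [gg_succ M r l (by omega)]
      exact (ih (by omega)).trans (Nat.le_add_right _ _)
  have hlev : ∀ v : VS M, lev M v ≤ 2 * M := by
    rintro (i | j | u)
    · exact Nat.sub_le _ _
    · have := j.2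
      show (j : ℕ) + 1 ≤ 2 * M
      omega
    · show 1 ≤ 2 * M
      omega
  have hoff : ∀ v : VS M, lev M v < 2 * M → gg M r (lev M v) + off M r v <
      gg M r (lev M v + 1) := by
    intro v hv
    rw [gg_succ M r _ hv]
    have hIv := hI _ hv
    rcases v with i | j | u
    · have hv' : 2 * M - (i : ℕ) < 2 * M := hv
      have hi := i.2
      show gg M r (2 * M - i) + (if (i : ℕ) = 0 ∨ (i : ℕ) = M - 1 then
        (2 * M - i).choose (r + 1) + Nat.choose 1 (r + 1) else 0) <
        gg M r (2 * M - i) + ((2 * M - (i : ℕ)).choose (r + 1) +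
          (2 * M - (2 * M - (i : ℕ)) - 1).choose (r + 1))
      split_ifs with h
      · have h1 : (i : ℕ) = M - 1 := by omega
        have h2 := hmono (2 * M - (2 * M - (i : ℕ)) - 1) (by omega)
        omega
      · have hIv' : B + C + 2 ≤ (2 * M - (i : ℕ)).choose (r + 1) +
          (2 * M - (2 * M - (i : ℕ)) - 1).choose (r + 1) := hIv
        omega
    · show gg M r (j + 1) + (B + if M - 1 ≤ (j : ℕ) then C else 0) < gg M r (j + 1) +
        (((j : ℕ) + 1).choose (r + 1) + (2 * M - ((j : ℕ) + 1) - 1).choose (r + 1))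
      have hIv' : B + C + 2 ≤ ((j : ℕ) + 1).choose (r + 1) +
          (2 * M - ((j : ℕ) + 1) - 1).choose (r + 1) := hIv
      split_ifs <;> omega
    · show gg M r 1 + (Nat.choose 2 (r + 2) + B + (M + 1).choose (r + 1)) < gg M r 1 +
        (Nat.choose 1 (r + 1) + (2 * M - 1 - 1).choose (r + 1))
      have h1 := choose_superadd r (M + 1) (M - 3)
      rw [show M + 1 + (M - 3) = 2 * M - 1 - 1 by omega] at h1
      omega
  have hlt : ∀ v w : VS M, lev M v < lev M w →
      gg M r (lev M v) + off M r v < gg M r (lev M w) + off M r w := by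
    intro v w h
    have h1 := hoff v (lt_of_lt_of_le h (hlev w))
    have h2 := hgmono (lev M v + 1) (lev M w) h (hlev w)
    omega
  have hoffb : ∀ j : Fin (2 * M), 0 < off M r (.inr (.inl j)) ∧
      off M r (.inr (.inl j)) < A := by
    intro j
    show 0 < B + (if M - 1 ≤ (j : ℕ) then C else 0) ∧ B + (if M - 1 ≤ (j : ℕ) then C else 0) < A
    split_ifs <;> omega
  have hoffa : ∀ i : Fin (2 * M), off M r (.inl i) = 0 ∨ A ≤ off M r (.inl i) := by
    intro i
    show (if (i : ℕ) = 0 ∨ (i : ℕ) = M - 1 then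
        (2 * M - i).choose (r + 1) + Nat.choose 1 (r + 1) else 0) = 0 ∨ A ≤ (if (i : ℕ) = 0 ∨
          (i : ℕ) = M - 1 then (2 * M - i).choose (r + 1) + Nat.choose 1 (r + 1) else 0)
    split_ifs with h
    · right
      have := hmono (2 * M - i) (by omega)
      omega
    · exact Or.inl rfl
  have hab : ∀ (i j : Fin (2 * M)), off M r (.inl i) ≠ off M r (.inr (.inl j)) := by
    intro i j h
    have h1 := hoffb j
    rcases hoffa i with h2 | h2 <;> omega
  have hzpos : B < off M r (.inr (.inr ()) : VS M) := by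
    show B < Nat.choose 2 (r + 2) + B + (M + 1).choose (r + 1)
    have := hmono (M + 1) (by omega)
    omega
  have heq : ∀ v w : VS M, v ≠ w → lev M v = lev M w → off M r v ≠ off M r w := by
    rintro (i | j | u) (i' | j' | u') hne hl
    · exfalso
      apply hne
      have hl' : 2 * M - (i : ℕ) = 2 * M - (i' : ℕ) := hl
      have h1 := i.2
      have h2 := i'.2
      rw [Fin.ext (show (i : ℕ) = i' by omega)]
    · exact hab i j'
    · have hl' : 2 * M - (i : ℕ) = 1 := hl
      have h0 : off M r (.inl i) = 0 := if_neg (by omega)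
      rw [h0]
      show 0 ≠ off M r (.inr (.inr ()))
      omega
    · exact (hab i' j).symm
    · exfalso
      apply hne
      have hl' : (j : ℕ) + 1 = j' + 1 := hl
      rw [Fin.ext (show (j : ℕ) = j' by omega)]
    · have hl' : (j : ℕ) + 1 = 1 := hl
      have h0 : off M r (.inr (.inl j)) = B := by
        show B + (if M - 1 ≤ (j : ℕ) then C else 0) = B
        rw [if_neg (by omega), add_zero]
      rw [h0]
      show B ≠ off M r (.inr (.inr ()))
      omega
    · have hl' : 1 = 2 * M - (i' : ℕ) := hl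
      have h0 : off M r (.inl i') = 0 := if_neg (by omega)
      rw [h0]
      show off M r (.inr (.inr ())) ≠ 0
      omega
    · have hl' : 1 = (j' : ℕ) + 1 := hl
      have h0 : off M r (.inr (.inl j')) = B := by
        show B + (if M - 1 ≤ (j' : ℕ) then C else 0) = B
        rw [if_neg (by omega), add_zero]
      rw [h0]
      show off M r (.inr (.inr ())) ≠ B
      omega
    · exact absurd rfl hne
  intro v w hvw
  rw [fdeg_GS M r (by omega), fdeg_GS M r (by omega)]
  rcases lt_trichotomy (lev M v) (lev M w) with h | h | h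
  · exact (hlt v w h).ne
  · have := heq v w hvw h
    rw [h]
    omega
  · exact (hlt w v h).ne'

lemma exists_M (r N : ℕ) : ∃ M, N ≤ M ∧
    (2 * M - 1).choose r + M.choose r + 2 ≤ (M - 3).choose (r + 1) := by
  let M := N + 2 ^ (2 * r + 3) * (r + 1).factorial + 2 * (r + 3)
  refine ⟨M, by omega, ?_⟩
  have hM1 : 2 ^ (2 * r + 3) * (r + 1).factorial ≤ M := by omega
  have hM2 : 2 * (r + 3) ≤ M := by omega
  have hpos : 0 < M := by omega
  have h1 : (2 * M - 1).choose r ≤ (2 * M) ^ r :=
    (Nat.choose_le_pow (2 * M - 1) r).trans (Nat.pow_le_pow_left (by omega) _)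
  have h2 : M.choose r ≤ (2 * M) ^ r :=
    (Nat.choose_le_pow M r).trans (Nat.pow_le_pow_left (by omega) _)
  have h3 : 1 ≤ (2 * M) ^ r := Nat.one_le_pow _ _ (by omega)
  have h4 : (M - 3 + 1 - (r + 1)) ^ (r + 1) ≤ (r + 1).factorial * (M - 3).choose (r + 1) := by
    rw [← Nat.descFactorial_eq_factorial_mul_choose]
    exact Nat.pow_sub_le_descFactorial _ _
  have h5 : M ^ (r + 1) ≤ 2 ^ (r + 1) * ((r + 1).factorial * (M - 3).choose (r + 1)) := by
    calc M ^ (r + 1) ≤ (2 * (M - 3 + 1 - (r + 1))) ^ (r + 1) :=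
          Nat.pow_le_pow_left (by omega) _
      _ = 2 ^ (r + 1) * (M - 3 + 1 - (r + 1)) ^ (r + 1) := mul_pow _ _ _
      _ ≤ _ := Nat.mul_le_mul_left _ h4
  have h6 : 4 * (2 * M) ^ r ≤ (M - 3).choose (r + 1) := by
    have h7 : 2 ^ (r + 1) * (r + 1).factorial * (4 * (2 * M) ^ r) ≤
        2 ^ (r + 1) * (r + 1).factorial * (M - 3).choose (r + 1) := by
      calc 2 ^ (r + 1) * (r + 1).factorial * (4 * (2 * M) ^ r)
          = (2 ^ (2 * r + 3) * (r + 1).factorial) * M ^ r := by
            rw [mul_pow, show 2 * r + 3 = (r + 1) + r + 2 by ring, pow_add, pow_add]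
            ring
        _ ≤ M * M ^ r := Nat.mul_le_mul_right _ hM1
        _ = M ^ (r + 1) := by ring
        _ ≤ _ := h5
        _ = _ := by ring
    exact Nat.le_of_mul_le_mul_left h7 (by positivity)
  omega

/-- **Q1 and Q2.** There are arbitrarily large star-irregular graphs and arbitrarily large
clique-irregular graphs. -/
theorem result :
    (∀ n : ℕ, 2 ≤ n → ∀ N : ℕ, ∃ (V : Type) (_ : Fintype V) (G : SimpleGraph V),
      N ≤ Fintype.card V ∧ Irregular (star n) G) ∧
    (∀ n : ℕ, 3 ≤ n → ∀ N : ℕ, ∃ (V : Type) (_ : Fintype V) (G : SimpleGraph V),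
      N ≤ Fintype.card V ∧ Irregular (K n) G) := by
  constructor
  · intro n hn N
    obtain ⟨r, rfl⟩ : ∃ r, n = r + 2 := ⟨n - 2, by omega⟩
    obtain ⟨M, hM1, hM2⟩ := exists_M r N
    refine ⟨VS M, inferInstance, GS M, ?_, irregular_GS r M hM2⟩
    simp only [VS, Fintype.card_sum, Fintype.card_fin, Fintype.card_unit]
    omega
  · intro n hn N
    obtain ⟨r, rfl⟩ : ∃ r, n = r + 2 := ⟨n - 2, by omega⟩
    refine ⟨Fin (2 * (2 * (N + r + 1) + 1) + 2), inferInstance, GQ (N + r + 1), ?_,
      irregular_GQ r (N + r + 1) (by omega) (by omega)⟩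
    rw [Fintype.card_fin]
    omega

end Pool.Agent.Results.MP_5484c7_co.Infinite
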